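import Pool.Agent.H293.EX.Stm

set_option autoImplicit false

/-!
# Project EX (helper293), statement AS (helper164)
-/

namespace Pool.Agent.H164.EX

open MeasureTheory Filter Topology Set Complex Pool.Agent.H293.EX

lemma kap_int (h : S_KE) {a : ℝ} (ha : 0 < a) : IntegrableOn (fun w : ℝ => kap a w) (Ioi 0) := by
  have h1 := (h a 0 ha (by simpa using ha)).1
  have h2 : (fun w : ℝ => (kap a w : ℂ) * cexp (-((0 : ℂ) * w))) = fun w : ℝ => (kap a w : ℂ) := by
    funext w; simp
  rw [h2] at h1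
  have h3 := h1.re
  simp only [RCLike.re_eq_complex_re, Complex.ofReal_re] at h3
  exact h3

lemma cos_eq (a γ u w : ℝ) : kap a w * Real.cos (γ * (u - w)) =
    RCLike.re (cexp (I * γ * u) * ((kap a w : ℂ) * cexp (-((I * γ) * w)))) := by
  have h1 : cexp (I * γ * u) * ((kap a w : ℂ) * cexp (-((I * γ) * w))) =
      (kap a w : ℂ) * cexp (((γ * (u - w) : ℝ) : ℂ) * I) := by
    rw [mul_left_comm, ← Complex.exp_add]
    congr 2
    push_cast; ring
  rw [h1]
  simp only [RCLike.re_eq_complex_re, Complex.re_ofReal_mul, Complex.exp_ofReal_mul_I_re]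

lemma cos_int (h : S_KE) {a : ℝ} (ha : 0 < a) (γ u : ℝ) :
    IntegrableOn (fun w : ℝ => kap a w * Real.cos (γ * (u - w))) (Ioi 0) ∧
    ∫ w in Ioi (0 : ℝ), kap a w * Real.cos (γ * (u - w)) =
      (cexp (I * γ * u) * (a / (a + I * γ) - (a ^ 2 - 1) / 2 / (a + I * γ) ^ 2)).re := by
  obtain ⟨h1, h2⟩ := h a (I * γ) ha (by simpa using ha)
  have h3 : Integrable (fun w : ℝ => cexp (I * γ * u) * ((kap a w : ℂ) * cexp (-((I * γ) * w))))
      (volume.restrict (Ioi 0)) := h1.const_mul _
  have e1 : (fun w : ℝ => kap a w * Real.cos (γ * (u - w))) =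
      fun w : ℝ => RCLike.re (cexp (I * γ * u) * ((kap a w : ℂ) * cexp (-((I * γ) * w)))) := by
    funext w; exact cos_eq a γ u w
  refine ⟨?_, ?_⟩
  · rw [e1]; exact h3.re
  · rw [e1, integral_re h3, integral_const_mul, h2]
    rfl

theorem t_AS (h : S_KE) : S_AS := by
  intro a m P C ha hm hs hP hP1 hP2
  set c : ℝ → ℝ := fun γ => m γ * (2 / (1 + γ ^ 2)) with hc
  have c0 : ∀ γ, 0 ≤ c γ := fun γ => mul_nonneg (hm γ) (by positivity)
  set Z : ℝ → ℝ := fun v => ∑' γ : ℝ, c γ * Real.cos (γ * v) with hZ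
  set M : ℝ := ∑' γ : ℝ, c γ with hM
  have bd : ∀ γ v : ℝ, ‖c γ * Real.cos (γ * v)‖ ≤ c γ := by
    intro γ v
    rw [norm_mul, Real.norm_of_nonneg (c0 γ)]
    calc c γ * ‖Real.cos (γ * v)‖ ≤ c γ * 1 := by
          apply mul_le_mul_of_nonneg_left _ (c0 γ)
          exact Real.abs_cos_le_one _
      _ = c γ := mul_one _
  have sZ : ∀ v, Summable (fun γ : ℝ => c γ * Real.cos (γ * v)) := fun v =>
    Summable.of_norm_bounded hs (fun γ => bd γ v)
  have Zc : Continuous Z := by
    apply continuous_tsum _ hs bd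
    intro γ; fun_prop
  have Zb : ∀ v, |Z v| ≤ M := by
    intro v
    have := tsum_of_norm_bounded hs.hasSum (fun γ => bd γ v)
    simpa using this
  set r : ℝ → ℝ := fun v => P v + Z v with hr
  have rc : Continuous r := hP.add Zc
  have C0 : 0 ≤ C := le_trans (abs_nonneg _) (hP1 0 le_rfl)
  have M0 : 0 ≤ M := tsum_nonneg c0
  have r2 : ∀ v, 0 ≤ v → |r v| ≤ C * Real.exp (-(v / 4)) := by
    intro v hv
    have h1 := hP2 v hv
    have h2 : (∑' γ : ℝ, m γ * (2 / (1 + γ ^ 2) * Real.cos (γ * v))) = Z v := by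
      simp only [hZ, hc]
      congr 1; funext γ; ring
    rw [h2] at h1
    exact h1
  have rb : ∀ v, |r v| ≤ C + M := by
    intro v
    rcases le_total v 0 with hv | hv
    · calc |r v| ≤ |P v| + |Z v| := abs_add_le _ _
        _ ≤ C + M := add_le_add (hP1 v hv) (Zb v)
    · calc |r v| ≤ C * Real.exp (-(v / 4)) := r2 v hv
        _ ≤ C * 1 := by
            apply mul_le_mul_of_nonneg_left _ C0
            apply Real.exp_le_one_iff.2; linarith
        _ ≤ C + M := by linarith
  have r0 : Tendsto r atTop (𝓝 0) := by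
    have h1 : Tendsto (fun v : ℝ => C * Real.exp (-(v / 4))) atTop (𝓝 (C * 0)) := by
      apply Tendsto.const_mul
      apply Real.tendsto_exp_atBot.comp
      apply tendsto_neg_atTop_atBot.comp
      exact tendsto_id.atTop_div_const (by norm_num)
    rw [mul_zero] at h1
    apply squeeze_zero_norm' _ h1
    filter_upwards [eventually_ge_atTop 0] with v hv
    exact r2 v hv
  have kI := kap_int h ha
  -- integrability
  have ir : ∀ u, Integrable (fun w : ℝ => kap a w * r (u - w)) (volume.restrict (Ioi 0)) := by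
    intro u
    apply kI.mul_bdd (c := C + M)
    · exact (rc.comp (continuous_const.sub continuous_id)).aestronglyMeasurable
    · exact Eventually.of_forall fun w => rb _
  have iZ : ∀ u, Integrable (fun w : ℝ => kap a w * Z (u - w)) (volume.restrict (Ioi 0)) := by
    intro u
    apply kI.mul_bdd (c := M)
    · exact (Zc.comp (continuous_const.sub continuous_id)).aestronglyMeasurable
    · exact Eventually.of_forall fun w => Zb _
  -- exchange
  have ex : ∀ u, ∫ w in Ioi (0 : ℝ), kap a w * Z (u - w) =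
      ∑' γ : ℝ, c γ * ∫ w in Ioi (0 : ℝ), kap a w * Real.cos (γ * (u - w)) := by
    intro u
    set s : Set ℝ := Function.support c with hs'
    have : Countable s := hs.countable_support.to_subtype
    have e1 : ∀ v, Z v = ∑' γ : s, c γ * Real.cos (γ * v) := by
      intro v
      refine (tsum_subtype_eq_of_support_subset (f := fun γ : ℝ => c γ * Real.cos (γ * v)) ?_).symm
      intro γ hγ
      simp only [Function.mem_support, ne_eq, mul_eq_zero, not_or] at hγ
      exact hγ.1
    have e2 : (∑' γ : ℝ, c γ * ∫ w in Ioi (0 : ℝ), kap a w * Real.cos (γ * (u - w))) =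
        ∑' γ : s, c γ * ∫ w in Ioi (0 : ℝ), kap a w * Real.cos (γ * (u - w)) := by
      refine (tsum_subtype_eq_of_support_subset
        (f := fun γ : ℝ => c γ * ∫ w in Ioi (0 : ℝ), kap a w * Real.cos (γ * (u - w))) ?_).symm
      intro γ hγ
      simp only [Function.mem_support, ne_eq, mul_eq_zero, not_or] at hγ
      exact hγ.1
    rw [e2]
    have hF : ∀ γ : s, Integrable (fun w : ℝ => c γ * (kap a w * Real.cos ((γ : ℝ) * (u - w))))
        (volume.restrict (Ioi 0)) := fun γ => ((cos_int h ha γ u).1).const_mul _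
    have hS : Summable fun γ : s => ∫ w in Ioi (0 : ℝ), ‖c γ * (kap a w * Real.cos ((γ : ℝ) * (u - w)))‖ := by
      have h1 : Summable fun γ : s => c γ * ∫ w in Ioi (0 : ℝ), ‖kap a w‖ :=
        (hs.subtype s).mul_right _
      refine Summable.of_nonneg_of_le (fun γ => integral_nonneg fun w => norm_nonneg _) (fun γ => ?_) h1
      rw [← integral_const_mul]
      apply integral_mono (hF γ).norm (kI.norm.const_mul _)
      intro w
      show ‖c γ * (kap a w * Real.cos ((γ : ℝ) * (u - w)))‖ ≤ c γ * ‖kap a w‖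
      have e9 : ‖c γ * (kap a w * Real.cos ((γ : ℝ) * (u - w)))‖ =
          c γ * (‖kap a w‖ * ‖Real.cos ((γ : ℝ) * (u - w))‖) := by
        rw [norm_mul (c γ), norm_mul (kap a w), Real.norm_of_nonneg (c0 γ)]
      rw [e9]
      apply mul_le_mul_of_nonneg_left _ (c0 γ)
      calc ‖kap a w‖ * ‖Real.cos ((γ : ℝ) * (u - w))‖ ≤ ‖kap a w‖ * 1 :=
            mul_le_mul_of_nonneg_left (Real.abs_cos_le_one _) (norm_nonneg _)
        _ = ‖kap a w‖ := mul_one _
    have h3 := hasSum_integral_of_summable_integral_norm hF hS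
    have h4 : ∀ γ : s, ∫ w in Ioi (0 : ℝ), c γ * (kap a w * Real.cos ((γ : ℝ) * (u - w))) =
        c γ * ∫ w in Ioi (0 : ℝ), kap a w * Real.cos ((γ : ℝ) * (u - w)) :=
      fun γ => integral_const_mul _ _
    have h5 : (fun w : ℝ => kap a w * Z (u - w)) =
        fun w : ℝ => ∑' γ : s, c γ * (kap a w * Real.cos ((γ : ℝ) * (u - w))) := by
      funext w
      rw [e1, ← tsum_mul_left]
      congr 1; funext γ; ring
    rw [h5, ← h3.tsum_eq]
    exact tsum_congr h4
  -- the sum
  have key : ∀ u : ℝ, (∑' γ : ℝ, m γ * (cexp (I * γ * u) / ((a : ℂ) + I * γ) ^ 2).re) =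
      (∫ w in Ioi (0 : ℝ), kap a w * Z (u - w)) - 1 / 2 * Z u := by
    intro u
    rw [ex u]
    have s1 : Summable fun γ : ℝ => c γ * ∫ w in Ioi (0 : ℝ), kap a w * Real.cos (γ * (u - w)) := by
      have h1 : Summable fun γ : ℝ => c γ * ∫ w in Ioi (0 : ℝ), ‖kap a w‖ := hs.mul_right _
      refine Summable.of_norm_bounded h1 (fun γ => ?_)
      rw [norm_mul, Real.norm_of_nonneg (c0 γ)]
      apply mul_le_mul_of_nonneg_left _ (c0 γ)
      refine (norm_integral_le_integral_norm _).trans ?_
      apply integral_mono (cos_int h ha γ u).1.norm kI.norm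
      intro w
      simp only
      rw [norm_mul]
      calc ‖kap a w‖ * ‖Real.cos ((γ : ℝ) * (u - w))‖ ≤ ‖kap a w‖ * 1 :=
            mul_le_mul_of_nonneg_left (Real.abs_cos_le_one _) (norm_nonneg _)
        _ = ‖kap a w‖ := mul_one _
    have s2 : Summable fun γ : ℝ => 1 / 2 * (c γ * Real.cos (γ * u)) := (sZ u).mul_left _
    rw [← tsum_mul_left, ← s1.tsum_sub s2]
    congr 1; funext γ
    rw [(cos_int h ha γ u).2]
    have hne : (a : ℂ) + I * γ ≠ 0 := by
      intro h0
      have := congrArg Complex.re h0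
      simp at this
      linarith
    have hg : (1 : ℂ) + (γ : ℂ) ^ 2 ≠ 0 := by
      have : (1 : ℝ) + γ ^ 2 ≠ 0 := by positivity
      exact_mod_cast this
    have e3 : cexp (I * γ * u) / ((a : ℂ) + I * γ) ^ 2 = (((2 / (1 + γ ^ 2) : ℝ)) : ℂ) *
        (cexp (I * γ * u) * (a / (a + I * γ) - (a ^ 2 - 1) / 2 / (a + I * γ) ^ 2) -
          1 / 2 * cexp (I * γ * u)) := by
      push_cast
      field_simp
      ring_nf
      simp only [Complex.I_sq]
      ring
    have e4 : (cexp (I * γ * u)).re = Real.cos (γ * u) := by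
      have : I * (γ : ℂ) * u = ((γ * u : ℝ) : ℂ) * I := by push_cast; ring
      rw [this, Complex.exp_ofReal_mul_I_re]
    have e5 : (1 / 2 * cexp (I * γ * u)).re = 1 / 2 * Real.cos (γ * u) := by
      have : (1 / 2 : ℂ) = ((1 / 2 : ℝ) : ℂ) := by push_cast; rfl
      rw [this, Complex.re_ofReal_mul, e4]
    rw [e3, Complex.re_ofReal_mul, Complex.sub_re, e5]
    simp only [hc]
    ring
  have fin : ∀ u, (-(1 / 2) * P u + ∫ w in Ioi (0 : ℝ), kap a w * P (u - w)) +
      ∑' γ : ℝ, m γ * (cexp (I * γ * u) / ((a : ℂ) + I * γ) ^ 2).re =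
      -(1 / 2) * r u + ∫ w in Ioi (0 : ℝ), kap a w * r (u - w) := by
    intro u
    rw [key u]
    have e6 : (fun w : ℝ => kap a w * P (u - w)) =
        fun w : ℝ => kap a w * r (u - w) - kap a w * Z (u - w) := by
      funext w; simp only [hr]; ring
    rw [e6, integral_sub (ir u) (iZ u)]
    simp only [hr]
    ring
  have t2 : Tendsto (fun u : ℝ => ∫ w in Ioi (0 : ℝ), kap a w * r (u - w)) atTop (𝓝 0) := by
    have h0 : (∫ w in Ioi (0 : ℝ), (fun _ => (0 : ℝ)) w) = 0 := by simp
    have h1 : Tendsto (fun u : ℝ => ∫ w in Ioi (0 : ℝ), kap a w * r (u - w)) atTop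
        (𝓝 (∫ w in Ioi (0 : ℝ), (fun _ => (0 : ℝ)) w)) := ?_
    · rw [h0] at h1; exact h1
    apply tendsto_integral_filter_of_dominated_convergence (fun w => ‖kap a w‖ * (C + M))
    · exact Eventually.of_forall fun u => (ir u).aestronglyMeasurable
    · refine Eventually.of_forall fun u => Eventually.of_forall fun w => ?_
      rw [norm_mul]
      exact mul_le_mul_of_nonneg_left (rb _) (norm_nonneg _)
    · exact kI.norm.mul_const _
    · refine Eventually.of_forall fun w => ?_
      have h1 : Tendsto (fun u : ℝ => r (u - w)) atTop (𝓝 0) :=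
        r0.comp (tendsto_atTop_add_const_right _ (-w) tendsto_id)
      simpa using h1.const_mul (kap a w)
  have t1 : Tendsto (fun u : ℝ => -(1 / 2) * r u) atTop (𝓝 0) := by
    simpa using r0.const_mul (-(1 / 2) : ℝ)
  have t3 := t1.add t2
  rw [add_zero] at t3
  exact t3.congr fun u => (fin u).symm

end Pool.Agent.H164.EX
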